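import Pool.Agent.BOG.Stmts

/-!
# Row FIN of squad BOG (MP_9a4f8a_co): final assembly.
-/

set_option autoImplicit false

namespace Pool.Agent.BOG.H85

open Pool.Agent.Helper61_Gamma (IsSimple RepOver Dt)

universe u v

theorem fin_ (mat : MatStmt.{u, v}) (dow : DowStmt.{u, v}) : FinStmt.{u, v} := by
  intro p hp
  refine ⟨fun n w hw hn har α M hs hr hF K _ hK hrep =>
    mat p n w hw hn har α M hs hr hF K hK hrep, ?_⟩
  intro w L hw hL
  have hp1 : 1 ≤ p := hp.out.one_le
  constructor
  · intro α M hs hr hF hN K _ hK hrep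
    have hw1 : 1 ≤ w := by
      rcases Nat.eq_zero_or_pos w with h | h
      · subst h
        norm_num at hw
        omega
      · exact h
    have har : (3 * ((3 * p + 1 : ℕ) - 1) ^ 2 : ℤ) <
        (w : ℤ) ^ 2 * (3 * p + 1 : ℕ) * ((3 * p + 1 : ℕ) - 3 * p) := by
      have h1 : (9 * p : ℤ) ≤ (w : ℤ) ^ 2 := by exact_mod_cast hw
      have h2 : (1 : ℤ) ≤ p := by exact_mod_cast hp1
      push_cast
      nlinarith
    have h := mat p (3 * p + 1) w hw1 (by omega) har α M hs hr hF K
      (hK.imp id (fun h => by omega)) hrep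
    exact absurd hN (not_le.mpr h)
  · intro N hN
    by_contra hlt
    obtain ⟨α, M, hs, hr, hc, hF, K, _, hK, hrep⟩ := dow p
    refine hN α M hs hr hF ?_ K (Or.inl hK) hrep
    rw [hc]
    exact_mod_cast (by omega : N ≤ 3 * p)

end Pool.Agent.BOG.H85
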