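import Pool.Agent.Helper77_BOG.SEQ
import Pool.Agent.Helper91_BOG.FDM
import Pool.Agent.Helper62_BOG.EDA
import Pool.Agent.Helper28_BOG.EDB
import Pool.Agent.Helper10_BOG.CST
import Pool.Agent.Helper52_BOG.DER
import Pool.Agent.Helper69_BOG.STA
import Pool.Agent.Helper69_BOG.STB
import Pool.Agent.Helper70_BOG.GPA
import Pool.Agent.Helper70_BOG.GPB
import Pool.Agent.Helper31_BOG.LDF
import Pool.Agent.Helper37_BOG.TAY
import Pool.Agent.Helper16_BOG.CUT
import Pool.Agent.Helper20_BOG.VNC
import Pool.Agent.Helper40_BOG.LOW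
import Pool.Agent.Helper76_BOG.PTS
import Pool.Agent.Helper95_BOG.INC
import Pool.Agent.Helper23_BOG.RKW
import Pool.Agent.Helper37_BOG.SUM
import Pool.Agent.Helper49_BOG.NUM
import Pool.Agent.Helper92_BOG.KSD
import Pool.Agent.Helper77_BOG.GEN
import Pool.Agent.Helper70_BOG.CNT
import Pool.Agent.Helper90_BOG.MAT
import Pool.Agent.Helper30_BOG.DOW
import Pool.Agent.Helper85_BOG.FIN

/-!
# Squad BOG (MP_9a4f8a_co): all rows together, no hypotheses.
-/

set_option autoImplicit false

namespace Pool.Agent.BOG.H85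

universe u v

theorem sta_all : StaStmt.{v} := H69.sta H91.fdm

theorem stb_all : StbStmt.{v} := H69.stb H91.fdm sta_all

theorem gpa_all : GpaStmt.{v} := H70.gpa sta_all H52.der H10.cst

theorem gpb_all : GpbStmt.{v} := H70.gpb stb_all H52.der H10.cst

theorem vnc_all : VncStmt.{v} := H20.vnc H91.fdm H16.cut

theorem low_all : LowStmt.{v} := H40.low H37.tay H16.cut vnc_all H91.fdm

theorem ksd_all : KsdStmt.{v} :=
  H92.ksd H77.seq (H62.eda H91.fdm) (H28.edb H91.fdm) gpa_all gpb_all (H31.ldf H91.fdm) low_all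
    H76.pts H95.inc H23.rkw H37.sm H49.num

theorem mat_all : MatStmt.{u, v} := H90.mat ksd_all H77.gen H70.cnt

theorem fin_all : FinStmt.{u, v} := fin_ mat_all H30.dow

end Pool.Agent.BOG.H85
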